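import Mathlib

set_option autoImplicit false

open Set Filter Topology

namespace Pool.Agent.Results.MP_02575e_gt.FreeKR

section komega

variable {F : Type*} [TopologicalSpace F] [T2Space F] {C : ℕ → Type*}
    [∀ n, TopologicalSpace (C n)] [∀ n, CompactSpace (C n)] (q : ∀ n, C n → F)

/-- One step of the construction of product neighbourhoods. -/
lemma step_lemma (hq : ∀ n, Continuous (q n)) (W : Set (F × F)) (m : ℕ)
    (hW : IsOpen ((Prod.map (q m) (q m)) ⁻¹' W)) (A B : Set F) (hA : IsCompact A) (hB : IsCompact B)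
    (hAB : A ×ˢ B ⊆ W) :
    ∃ A' B' OA OB : Set F, IsCompact A' ∧ IsCompact B' ∧ A' ⊆ range (q m) ∧ B' ⊆ range (q m) ∧
      A' ×ˢ B' ⊆ W ∧ IsOpen OA ∧ IsOpen OB ∧ A ⊆ OA ∧ B ⊆ OB ∧ OA ∩ range (q m) ⊆ A' ∧
      OB ∩ range (q m) ⊆ B' := by
  have hR : IsCompact (range (q m)) := isCompact_range (hq m)
  set Z : Set (F × F) := Prod.map (q m) (q m) '' ((Prod.map (q m) (q m)) ⁻¹' W)ᶜ with hZ
  have hZc : IsClosed Z :=
    ((hW.isClosed_compl.isCompact).image ((hq m).prodMap (hq m))).isClosed
  have hsub : A ×ˢ B ⊆ Zᶜ := by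
    rintro ⟨x, y⟩ hxy ⟨⟨c, d⟩, hcd, he⟩
    apply hcd
    rw [mem_preimage, he]
    exact hAB hxy
  have hin : ∀ p ∈ Zᶜ, p.1 ∈ range (q m) → p.2 ∈ range (q m) → p ∈ W := by
    rintro ⟨x, y⟩ hp ⟨c, hc⟩ ⟨d, hd⟩
    by_contra hn
    apply hp
    refine ⟨(c, d), ?_, ?_⟩
    · intro h
      apply hn
      rw [mem_preimage, Prod.map_apply, hc, hd] at h
      exact h
    · rw [Prod.map_apply, hc, hd]
  obtain ⟨u, v, hu, hv, hAu, hBv, huv⟩ := generalized_tube_lemma hA hB hZc.isOpen_compl hsub
  have key : ∀ (A u : Set F), IsCompact A → IsOpen u → A ⊆ u →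
      ∃ A' OA : Set F, IsCompact A' ∧ A' ⊆ range (q m) ∧ A' ⊆ u ∧ IsOpen OA ∧ A ⊆ OA ∧
        OA ∩ range (q m) ⊆ A' := by
    intro A u hA hu hAu
    have h1 : IsCompact (range (q m) \ u) := hR.diff hu
    have h2 : Disjoint A (range (q m) \ u) := by
      rw [Set.disjoint_left]
      intro a ha ha'
      exact ha'.2 (hAu ha)
    obtain ⟨O, O', hO, hO', hAO, hRO, hd⟩ := SeparatedNhds.of_isCompact_isCompact hA h1 h2
    refine ⟨range (q m) \ O', O, hR.diff hO', sdiff_subset, ?_, hO, hAO, ?_⟩
    · intro x hx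
      by_contra hxu
      exact hx.2 (hRO ⟨hx.1, hxu⟩)
    · intro x hx
      exact ⟨hx.2, fun h => Set.disjoint_left.1 hd hx.1 h⟩
  obtain ⟨A', OA, h1, h2, h3, h4, h5, h6⟩ := key A u hA hu hAu
  obtain ⟨B', OB, g1, g2, g3, g4, g5, g6⟩ := key B v hB hv hBv
  refine ⟨A', B', OA, OB, h1, g1, h2, g2, ?_, h4, g4, h5, g5, h6, g6⟩
  rintro ⟨x, y⟩ ⟨hx, hy⟩
  exact hin _ (huv ⟨h3 hx, g3 hy⟩) (h2 hx) (g2 hy)

/-- The product of two countable direct limits of compact sets is the direct limit of the
products. -/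
theorem prod_open (hq : ∀ n, Continuous (q n)) (hmono : Monotone fun n => range (q n))
    (hcov : ∀ x, ∃ n, x ∈ range (q n))
    (hop : ∀ U : Set F, (∀ n, IsOpen (q n ⁻¹' U)) → IsOpen U)
    (W : Set (F × F)) (hW : ∀ n, IsOpen ((Prod.map (q n) (q n)) ⁻¹' W)) : IsOpen W := by
  rw [isOpen_iff_mem_nhds]
  rintro ⟨a, b⟩ hab
  obtain ⟨m, ham, hbm⟩ : ∃ m, a ∈ range (q m) ∧ b ∈ range (q m) := by
    obtain ⟨n1, h1⟩ := hcov a
    obtain ⟨n2, h2⟩ := hcov b
    exact ⟨max n1 n2, hmono (le_max_left _ _) h1, hmono (le_max_right _ _) h2⟩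
  let good : ℕ → Set F × Set F → Prop := fun n p => IsCompact p.1 ∧ IsCompact p.2 ∧
    p.1 ⊆ range (q (m + n)) ∧ p.2 ⊆ range (q (m + n)) ∧ p.1 ×ˢ p.2 ⊆ W
  let rel : ℕ → Set F × Set F → Set F × Set F → Prop := fun n p p' =>
    ∃ OA OB : Set F, IsOpen OA ∧ IsOpen OB ∧ p.1 ⊆ OA ∧ p.2 ⊆ OB ∧
      OA ∩ range (q (m + (n + 1))) ⊆ p'.1 ∧ OB ∩ range (q (m + (n + 1))) ⊆ p'.2
  have hstep : ∀ (n : ℕ) (p : Set F × Set F), good n p → ∃ p', good (n + 1) p' ∧ rel n p p' := by
    rintro n ⟨A, B⟩ ⟨hA, hB, -, -, hAB⟩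
    obtain ⟨A', B', OA, OB, h1, h2, h3, h4, h5, h6, h7, h8, h9, h10, h11⟩ :=
      step_lemma q hq W (m + (n + 1)) (hW _) A B hA hB hAB
    exact ⟨(A', B'), ⟨h1, h2, h3, h4, h5⟩, ⟨OA, OB, h6, h7, h8, h9, h10, h11⟩⟩
  choose! st hst using hstep
  let s : ℕ → Set F × Set F := fun n => Nat.rec ({a}, {b}) (fun n p => st n p) n
  have hs0 : s 0 = ({a}, {b}) := rfl
  have hsS : ∀ n, s (n + 1) = st n (s n) := fun n => rfl
  have hgood : ∀ n, good n (s n) := by
    intro n
    induction n with
    | zero =>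
      rw [hs0]
      refine ⟨isCompact_singleton, isCompact_singleton, ?_, ?_, ?_⟩
      · simpa using ham
      · simpa using hbm
      · rintro ⟨x, y⟩ ⟨hx, hy⟩
        simp only [mem_singleton_iff] at hx hy
        rw [hx, hy]
        exact hab
    | succ n ih => rw [hsS]; exact (hst n _ ih).1
  have hrel : ∀ n, rel n (s n) (s (n + 1)) := fun n => (hst n _ (hgood n)).2
  have hm1 : Monotone fun n => (s n).1 := by
    apply monotone_nat_of_le_succ
    intro n x hx
    obtain ⟨OA, OB, -, -, h3, -, h5, -⟩ := hrel n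
    exact h5 ⟨h3 hx, hmono (by omega : m + n ≤ m + (n + 1)) ((hgood n).2.2.1 hx)⟩
  have hm2 : Monotone fun n => (s n).2 := by
    apply monotone_nat_of_le_succ
    intro n x hx
    obtain ⟨OA, OB, -, -, -, h4, -, h6⟩ := hrel n
    exact h6 ⟨h4 hx, hmono (by omega : m + n ≤ m + (n + 1)) ((hgood n).2.2.2.1 hx)⟩
  have ho1 : IsOpen (⋃ n, (s n).1) := by
    apply hop
    intro k
    rw [isOpen_iff_mem_nhds]
    intro c hc
    obtain ⟨n, hn⟩ := mem_iUnion.1 hc
    have hN : q k c ∈ (s (max n k)).1 := hm1 (le_max_left n k) hn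
    obtain ⟨OA, OB, h1, -, h3, -, h5, -⟩ := hrel (max n k)
    filter_upwards [(h1.preimage (hq k)).mem_nhds (h3 hN)] with c' hc'
    refine mem_iUnion.2 ⟨max n k + 1, h5 ⟨hc', ?_⟩⟩
    exact hmono (by have := le_max_right n k; omega : k ≤ m + (max n k + 1)) (mem_range_self c')
  have ho2 : IsOpen (⋃ n, (s n).2) := by
    apply hop
    intro k
    rw [isOpen_iff_mem_nhds]
    intro c hc
    obtain ⟨n, hn⟩ := mem_iUnion.1 hc
    have hN : q k c ∈ (s (max n k)).2 := hm2 (le_max_left n k) hn
    obtain ⟨OA, OB, -, h1, -, h3, -, h5⟩ := hrel (max n k)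
    filter_upwards [(h1.preimage (hq k)).mem_nhds (h3 hN)] with c' hc'
    refine mem_iUnion.2 ⟨max n k + 1, h5 ⟨hc', ?_⟩⟩
    exact hmono (by have := le_max_right n k; omega : k ≤ m + (max n k + 1)) (mem_range_self c')
  refine mem_of_superset ((ho1.prod ho2).mem_nhds ⟨mem_iUnion.2 ⟨0, ?_⟩, mem_iUnion.2 ⟨0, ?_⟩⟩) ?_
  · rw [hs0]; exact rfl
  · rw [hs0]; exact rfl
  · rintro ⟨x, y⟩ ⟨hx, hy⟩
    obtain ⟨n1, h1⟩ := mem_iUnion.1 hx
    obtain ⟨n2, h2⟩ := mem_iUnion.1 hy
    exact (hgood (max n1 n2)).2.2.2.2 ⟨hm1 (le_max_left _ _) h1, hm2 (le_max_right _ _) h2⟩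

end komega


section words

/-- The value of a letter. -/
def val {K : Type} (p : K × SignType) : FreeGroup K := (FreeGroup.of p.1) ^ ((p.2 : SignType) : ℤ)

/-- The free group on `K` with the direct limit topology of the spaces of words. -/
def WG (K : Type) : Type := FreeGroup K

instance (K : Type) : Group (WG K) := inferInstanceAs (Group (FreeGroup K))

/-- The generators. -/
def gen {K : Type} (x : K) : WG K := (FreeGroup.of x : FreeGroup K)

/-- The homomorphism extending a map on generators. -/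
def lf {K : Type} {G : Type*} [Group G] (φ : K → G) : WG K →* G :=
  (FreeGroup.lift φ : FreeGroup K →* G)

/-- The homomorphism induced by a map of generators. -/
def mp {K L : Type} (g : K → L) : WG K →* WG L := (FreeGroup.map g : FreeGroup K →* FreeGroup L)

lemma lf_gen {K : Type} {G : Type*} [Group G] (φ : K → G) (x : K) : lf φ (gen x) = φ x :=
  FreeGroup.lift_apply_of

lemma mp_gen {K L : Type} (g : K → L) (x : K) : mp g (gen x) = gen (g x) := by
  exact FreeGroup.map.of

lemma hom_ext {K : Type} {G : Type*} [Group G] {f g : WG K →* G} (h : ∀ x, f (gen x) = g (gen x)) :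
    f = g := by
  have : (f : FreeGroup K →* G) = (g : FreeGroup K →* G) := FreeGroup.ext_hom _ _ h
  exact this

/-- The value of a word. -/
def q {K : Type} (n : ℕ) (v : Fin n → K × SignType) : WG K :=
  ((List.ofFn fun i => val (v i)).prod : FreeGroup K)

instance (K : Type) [TopologicalSpace K] : TopologicalSpace (WG K) :=
  ⨆ n, TopologicalSpace.coinduced (q n) inferInstance

lemma isOpen_iff' {K : Type} [TopologicalSpace K] (U : Set (WG K)) :
    IsOpen U ↔ ∀ n, IsOpen ((q n : (Fin n → K × SignType) → WG K) ⁻¹' U) := by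
  change IsOpen[⨆ n, TopologicalSpace.coinduced (q n) inferInstance] U ↔ _
  rw [isOpen_iSup_iff]
  exact Iff.rfl

lemma continuous_q {K : Type} [TopologicalSpace K] (n : ℕ) :
    Continuous (q n : (Fin n → K × SignType) → WG K) := by
  rw [continuous_def]
  intro s hs
  exact (isOpen_iff' s).1 hs n

lemma continuous_iff_q {K : Type} [TopologicalSpace K] {Y : Type*} [TopologicalSpace Y]
    (f : WG K → Y) :
    Continuous f ↔ ∀ n, Continuous fun v : Fin n → K × SignType => f (q n v) := by
  constructor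
  · intro h n
    exact h.comp (continuous_q n)
  · intro h
    rw [continuous_def]
    intro s hs
    rw [isOpen_iff']
    intro n
    exact hs.preimage (h n)

lemma continuous_ofFn_prod {M : Type*} [Monoid M] [TopologicalSpace M] [ContinuousMul M] (n : ℕ) :
    Continuous fun v : Fin n → M => (List.ofFn v).prod := by
  induction n with
  | zero => simpa using continuous_const
  | succ n ih =>
    simp only [List.ofFn_succ, List.prod_cons]
    exact (continuous_apply 0).mul (ih.comp (continuous_pi fun i => continuous_apply i.succ))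

lemma lift_q {K : Type} {G : Type*} [Group G] (φ : K → G) (n : ℕ) (v : Fin n → K × SignType) :
    lf φ (q n v) = (List.ofFn fun i => φ (v i).1 ^ (((v i).2 : SignType) : ℤ)).prod := by
  change (FreeGroup.lift φ : FreeGroup K →* G) (List.ofFn fun i => val (v i)).prod = _
  rw [map_list_prod, List.map_ofFn]
  congr 2
  funext i
  simp [val]

lemma continuous_lift {K : Type} [TopologicalSpace K] {G : Type*} [Group G] [TopologicalSpace G]
    [IsTopologicalGroup G] (φ : K → G) (hφ : Continuous φ) :
    Continuous (lf φ) := by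
  rw [continuous_iff_q]
  intro n
  have h1 : Continuous fun p : K × SignType => φ p.1 ^ ((p.2 : SignType) : ℤ) := by
    rw [continuous_prod_of_discrete_right]
    intro b
    change Continuous fun x => φ x ^ ((b : SignType) : ℤ)
    exact (continuous_zpow _).comp hφ
  have h2 : (fun v : Fin n → K × SignType => lf φ (q n v)) =
      (fun v : Fin n → G => (List.ofFn v).prod) ∘
        (fun (v : Fin n → K × SignType) i => φ (v i).1 ^ (((v i).2 : SignType) : ℤ)) := by
    funext v
    exact lift_q φ n v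
  rw [h2]
  exact (continuous_ofFn_prod n).comp (continuous_pi fun i => h1.comp (continuous_apply i))

lemma map_q {K L : Type} (g : K → L) (n : ℕ) (v : Fin n → K × SignType) :
    mp g (q n v) = q n (fun i => (g (v i).1, (v i).2)) := by
  change (FreeGroup.map g : FreeGroup K →* FreeGroup L) (List.ofFn fun i => val (v i)).prod =
    (List.ofFn fun i => val (g (v i).1, (v i).2)).prod
  rw [map_list_prod, List.map_ofFn]
  congr 2
  funext i
  simp [val]

lemma q_append {K : Type} (n m : ℕ) (v : Fin n → K × SignType) (w : Fin m → K × SignType) :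
    (q (n + m) (Fin.append v w) : WG K) = q n v * q m w := by
  change (List.ofFn fun i => val (Fin.append v w i)).prod =
    (List.ofFn fun i => val (v i)).prod * (List.ofFn fun i => val (w i)).prod
  rw [← List.prod_append]
  have h1 : ∀ {l : ℕ} (u : Fin l → K × SignType),
      (List.ofFn fun i => val (u i)) = (List.ofFn u).map val := by
    intro l u
    rw [List.map_ofFn]
    rfl
  rw [h1, h1, h1, List.ofFn_fin_append, List.map_append]

lemma q_inv {K : Type} (n : ℕ) (v : Fin n → K × SignType) :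
    (q n v : WG K)⁻¹ = q n (fun i => ((v i.rev).1, -(v i.rev).2)) := by
  change ((List.ofFn fun i => val (v i)).prod : FreeGroup K)⁻¹ =
    (List.ofFn fun i : Fin n => (val ((v i.rev).1, -(v i.rev).2) : FreeGroup K)).prod
  rw [List.prod_inv_reverse, List.map_ofFn]
  congr 1
  apply List.ext_getElem
  · simp
  · intro i h1 h2
    simp only [List.getElem_reverse, List.getElem_ofFn, Function.comp, val, List.length_ofFn]
    simp only [SignType.coe_neg, zpow_neg]
    have : (⟨n - 1 - i, by simp at h1; omega⟩ : Fin n) = (⟨i, by simpa using h2⟩ : Fin n).rev := by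
      apply Fin.ext
      simp only [Fin.rev]
      omega
    rw [this]

lemma q_surj {K : Type} (w : WG K) : ∃ n, ∃ v : Fin n → K × SignType, q n v = w := by
  refine FreeGroup.induction_on (C := fun w => ∃ n, ∃ v : Fin n → K × SignType, q n v = w) w
    ⟨0, Fin.elim0, ?_⟩ ?_ ?_ ?_
  · simp [q]
  · intro x
    exact ⟨1, fun _ => (x, 1), by simp [q, val]⟩
  · intro x _
    exact ⟨1, fun _ => (x, -1), by simp [q, val]⟩
  · rintro x y ⟨n, v, rfl⟩ ⟨m, w, rfl⟩
    exact ⟨n + m, Fin.append v w, q_append n m v w⟩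

lemma range_q_mono {K : Type} [Nonempty K] :
    Monotone fun n => range (q n : (Fin n → K × SignType) → WG K) := by
  apply monotone_nat_of_le_succ
  rintro n _ ⟨v, rfl⟩
  refine ⟨Fin.cons (Classical.arbitrary K, 0) v, ?_⟩
  simp [q, List.ofFn_succ, val]

lemma exists_retr {K : Type} [TopologicalSpace K] [TotallySeparatedSpace K] [Nonempty K]
    (s : Finset K) : ∃ ρ : K → K, (∀ x, ∀ᶠ y in 𝓝 x, ρ y = ρ x) ∧ ∀ x ∈ s, ρ x = x := by
  classical
  induction s using Finset.induction_on with
  | empty => exact ⟨fun _ => Classical.arbitrary K, fun x => Eventually.of_forall fun y => rfl,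
      by simp⟩
  | insert a s ha ih =>
    obtain ⟨ρ, h1, h2⟩ := ih
    have hU : ∀ t : K, ∃ U : Set K, IsClopen U ∧ a ∈ U ∧ (t ∈ s → t ∉ U) := by
      intro t
      by_cases ht : t ∈ s
      · have hne : a ≠ t := by rintro rfl; exact ha ht
        obtain ⟨U, h1, h2, h3⟩ := exists_isClopen_of_totally_separated hne
        exact ⟨U, h1, h2, fun _ => h3⟩
      · exact ⟨univ, isClopen_univ, mem_univ _, fun h => absurd h ht⟩
    choose U hU1 hU2 hU3 using hU
    set Z : Set K := ⋂ t ∈ s, U t with hZ
    have hZc : IsClopen Z := isClopen_biInter_finset fun t _ => hU1 t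
    have haZ : a ∈ Z := mem_iInter₂.2 fun t _ => hU2 t
    have hsZ : ∀ t ∈ s, t ∉ Z := fun t ht h => hU3 t ht (mem_iInter₂.1 h t ht)
    refine ⟨fun x => if x ∈ Z then a else ρ x, ?_, ?_⟩
    · intro x
      by_cases hx : x ∈ Z
      · filter_upwards [hZc.isOpen.mem_nhds hx] with y hy
        rw [if_pos hy, if_pos hx]
      · filter_upwards [hZc.compl.isOpen.mem_nhds hx, h1 x] with y hy hy'
        rw [if_neg hy, if_neg hx, hy']
    · intro x hx
      rcases Finset.mem_insert.1 hx with rfl | hx
      · exact if_pos haZ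
      · change (if x ∈ Z then a else ρ x) = x
        rw [if_neg (hsZ x hx), h2 x hx]

/-- Locally constant maps to a group induce locally constant maps on the free group. -/
lemma lift_locConst {K : Type} [TopologicalSpace K] {G : Type*} [Group G] (φ : K → G)
    (hφ : ∀ x, ∀ᶠ y in 𝓝 x, φ y = φ x) (w : WG K) :
    ∀ᶠ w' in 𝓝 w, lf φ w' = lf φ w := by
  let _ : TopologicalSpace G := ⊥
  have _ : DiscreteTopology G := ⟨rfl⟩
  have hc : Continuous φ := by
    rw [continuous_iff_continuousAt]
    intro x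
    unfold ContinuousAt
    rw [nhds_discrete G, tendsto_pure]
    exact hφ x
  have h := (continuous_lift φ hc).tendsto w
  rw [nhds_discrete G, tendsto_pure] at h
  exact h

instance {K : Type} [TopologicalSpace K] [TotallySeparatedSpace K] [Nonempty K] :
    T2Space (WG K) := by
  classical
  constructor
  intro w w' hne
  obtain ⟨n, v, rfl⟩ := q_surj w
  obtain ⟨m, v', rfl⟩ := q_surj w'
  obtain ⟨ρ, h1, h2⟩ := exists_retr ((Finset.univ.image fun i => (v i).1) ∪
    (Finset.univ.image fun i => (v' i).1))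
  have e1 : mp ρ (q n v) = q n v := by
    rw [map_q]
    congr 1
    funext i
    rw [h2 (v i).1 (Finset.mem_union_left _ (Finset.mem_image_of_mem _ (Finset.mem_univ i)))]
  have e2 : mp ρ (q m v') = q m v' := by
    rw [map_q]
    congr 1
    funext i
    rw [h2 (v' i).1 (Finset.mem_union_right _ (Finset.mem_image_of_mem _ (Finset.mem_univ i)))]
  have hl : ∀ w : WG K, ∀ᶠ w' in 𝓝 w, mp ρ w' = mp ρ w := by
    intro w
    have h3 := lift_locConst (fun x => (gen (ρ x) : WG K)) (fun x => (h1 x).mono fun y hy => by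
      rw [hy]) w
    have hm : mp ρ = lf (fun x => (gen (ρ x) : WG K)) := hom_ext fun x => by
      rw [mp_gen, lf_gen]
    rw [hm]
    exact h3
  have hopen : ∀ c : WG K, IsOpen {w : WG K | mp ρ w = c} := by
    intro c
    rw [isOpen_iff_mem_nhds]
    intro w hw
    filter_upwards [hl w] with w' hw'
    exact hw'.trans hw
  refine ⟨_, _, hopen (mp ρ (q n v)), hopen (mp ρ (q m v')), rfl, rfl, ?_⟩
  rw [Set.disjoint_left]
  intro w hw hw'
  apply hne
  rw [← e1, ← e2]
  exact hw.symm.trans hw'

instance {K : Type} [TopologicalSpace K] [TotallySeparatedSpace K] [Nonempty K] [CompactSpace K] :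
    IsTopologicalGroup (WG K) where
  continuous_mul := by
    rw [continuous_def]
    intro U hU
    apply prod_open (fun n => (q n : (Fin n → K × SignType) → WG K)) continuous_q range_q_mono
      (fun w => (q_surj w)) (fun U h => (isOpen_iff' U).2 h)
    intro n
    have hc : Continuous fun p : (Fin n → K × SignType) × (Fin n → K × SignType) =>
        Fin.append p.1 p.2 := by
      apply continuous_pi
      intro i
      refine Fin.addCases (fun j => ?_) (fun j => ?_) i
      · simp only [Fin.append_left]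
        exact (continuous_apply j).comp continuous_fst
      · simp only [Fin.append_right]
        exact (continuous_apply j).comp continuous_snd
    have he : Prod.map (q n : (Fin n → K × SignType) → WG K) (q n) ⁻¹'
        ((fun p : WG K × WG K => p.1 * p.2) ⁻¹' U) =
        (fun p : (Fin n → K × SignType) × (Fin n → K × SignType) =>
          (q (n + n) (Fin.append p.1 p.2) : WG K)) ⁻¹' U := by
      ext p
      simp only [mem_preimage, Prod.map_fst, Prod.map_snd, q_append]
    rw [he]
    exact hU.preimage ((continuous_q _).comp hc)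
  continuous_inv := by
    rw [continuous_iff_q]
    intro n
    have : (fun v : Fin n → K × SignType => (q n v : WG K)⁻¹) =
        fun v => q n (fun i => ((v i.rev).1, -(v i.rev).2)) := by
      funext v
      exact q_inv n v
    rw [this]
    refine (continuous_q n).comp (continuous_pi fun i => ?_)
    exact (continuous_fst.comp (continuous_apply i.rev)).prodMk
      ((continuous_of_discreteTopology (f := fun s : SignType => -s)).comp
        (continuous_snd.comp (continuous_apply i.rev)))

end words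

section space

/-- The ambient Cantor cube. -/
abbrev KK : Type := Set ℕ → Bool

/-- The characteristic functions of nonprincipal ultrafilters. -/
def bad (x : KK) : Prop :=
  x ∅ = false ∧ (∀ A, x Aᶜ = !(x A)) ∧ (∀ A B, x (A ∩ B) = (x A && x B)) ∧ ∀ n : ℕ, x {n} = false

/-- The space: the cube without the nonprincipal ultrafilters. -/
abbrev XX : Type := {x : KK // ¬ bad x}

lemma isOpen_not_bad : IsOpen {x : KK | ¬ bad x} := by
  have h : IsClosed {x : KK | bad x} := by
    have he : {x : KK | bad x} = {x : KK | x ∅ = false} ∩ ((⋂ A : Set ℕ, {x : KK | x Aᶜ = !(x A)}) ∩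
        ((⋂ A : Set ℕ, ⋂ B : Set ℕ, {x : KK | x (A ∩ B) = (x A && x B)}) ∩
          ⋂ n : ℕ, {x : KK | x {n} = false})) := by
      ext x
      simp only [bad, mem_inter_iff, mem_iInter]
      rfl
    rw [he]
    refine (isClosed_eq (continuous_apply _) continuous_const).inter (IsClosed.inter ?_
      (IsClosed.inter ?_ ?_))
    · exact isClosed_iInter fun A => isClosed_eq (continuous_apply _)
        ((continuous_of_discreteTopology (f := fun b : Bool => !b)).comp (continuous_apply A))
    · refine isClosed_iInter fun A => isClosed_iInter fun B => isClosed_eq (continuous_apply _) ?_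
      exact (continuous_of_discreteTopology (f := fun b : Bool × Bool => b.1 && b.2)).comp
          ((continuous_apply (A := fun _ : Set ℕ => Bool) A).prodMk (continuous_apply B))
    · exact isClosed_iInter fun n => isClosed_eq (continuous_apply _) continuous_const
  exact h.isOpen_compl

instance : LocallyCompactSpace XX := isOpen_not_bad.isOpenEmbedding_subtypeVal.locallyCompactSpace

lemma mem_nhds_K (x : KK) (N : Set KK) (hN : N ∈ 𝓝 x) :
    ∃ J : Finset (Set ℕ), ∀ y : KK, (∀ A ∈ J, y A = x A) → y ∈ N := by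
  rw [nhds_pi, Filter.mem_pi] at hN
  obtain ⟨I, hI, t, ht, hs⟩ := hN
  refine ⟨hI.toFinset, fun y hy => hs ?_⟩
  intro A hA
  rw [hy A (hI.mem_toFinset.2 hA)]
  exact mem_of_mem_nhds (ht A)

lemma mem_nhds_X (x : XX) (N : Set XX) (hN : N ∈ 𝓝 x) :
    ∃ J : Finset (Set ℕ), ∀ y : XX, (∀ A ∈ J, y.1 A = x.1 A) → y ∈ N := by
  rw [nhds_subtype_eq_comap, mem_comap] at hN
  obtain ⟨M, hM, hs⟩ := hN
  obtain ⟨J, hJ⟩ := mem_nhds_K x.1 M hM
  exact ⟨J, fun y hy => hs (hJ y.1 hy)⟩

lemma mem_nhds_W (n : ℕ) (a : Fin n → XX × SignType) (N : Set (Fin n → XX × SignType))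
    (hN : N ∈ 𝓝 a) : ∃ J : Finset (Set ℕ), ∀ a' : Fin n → XX × SignType,
      (∀ i, (a' i).2 = (a i).2 ∧ ∀ A ∈ J, (a' i).1.1 A = (a i).1.1 A) → a' ∈ N := by
  classical
  rw [nhds_pi, Filter.mem_pi] at hN
  obtain ⟨I, hI, t, ht, hs⟩ := hN
  have h1 : ∀ i, ∃ J : Finset (Set ℕ), ∀ b : XX × SignType, (b.2 = (a i).2 ∧
      ∀ A ∈ J, b.1.1 A = (a i).1.1 A) → b ∈ t i := by
    intro i
    obtain ⟨u, hu, v, hv, huv⟩ := mem_nhds_prod_iff.1 (ht i)
    obtain ⟨J, hJ⟩ := mem_nhds_X _ u hu
    refine ⟨J, fun b hb => huv ⟨hJ _ hb.2, ?_⟩⟩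
    rw [hb.1]
    exact mem_of_mem_nhds hv
  choose J hJ using h1
  refine ⟨Finset.univ.biUnion J, fun a' ha' => hs ?_⟩
  intro i _
  exact hJ i _ ⟨(ha' i).1, fun A hA => (ha' i).2 A
    (Finset.mem_biUnion.2 ⟨i, Finset.mem_univ i, hA⟩)⟩

/-- Keep the coordinates in `C`, put `true` elsewhere. -/
noncomputable def patch (C : Set (Set ℕ)) (y : KK) : KK := by
  classical exact fun A => if A ∈ C then y A else true

lemma patch_mem {C : Set (Set ℕ)} {A : Set ℕ} (h : A ∈ C) (y : KK) : patch C y A = y A := by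
  classical exact if_pos h

lemma patch_not_mem {C : Set (Set ℕ)} {A : Set ℕ} (h : A ∉ C) (y : KK) :
    patch C y A = true := by
  classical exact if_neg h

lemma patch_good {C : Set (Set ℕ)} (hC : C.Countable) (y : KK) : ¬ bad (patch C y) := by
  intro hb
  obtain ⟨A, hA⟩ : ∃ A : Set ℕ, A ∉ C ∪ (fun A => Aᶜ) ⁻¹' C := by
    by_contra hcon
    push Not at hcon
    have h1 : (C ∪ (fun A : Set ℕ => Aᶜ) ⁻¹' C).Countable :=
      hC.union (hC.preimage_of_injOn (compl_injective.injOn))
    have h2 : (univ : Set (Set ℕ)).Countable := h1.mono fun A _ => hcon A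
    have h3 : Countable (Set ℕ) := countable_univ_iff.1 h2
    obtain ⟨f, hf⟩ := exists_surjective_nat (Set ℕ)
    exact Function.cantor_surjective f hf
  have h1 : A ∉ C := fun h => hA (Or.inl h)
  have h2 : Aᶜ ∉ C := fun h => hA (Or.inr h)
  have h3 := hb.2.1 A
  rw [patch_not_mem h1, patch_not_mem h2] at h3
  exact absurd h3 (by decide)

lemma dense_val : DenseRange (Subtype.val : XX → KK) := by
  intro x
  rw [mem_closure_iff_nhds]
  intro N hN
  obtain ⟨J, hJ⟩ := mem_nhds_K x N hN
  refine ⟨patch (J : Set (Set ℕ)) x, hJ _ fun A hA => patch_mem (by exact_mod_cast hA) x, ?_⟩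
  exact ⟨⟨_, patch_good J.countable_toSet x⟩, rfl⟩

/-- The inclusion of words. -/
def incl (n : ℕ) (a : Fin n → XX × SignType) : Fin n → KK × SignType :=
  fun i => ((a i).1.1, (a i).2)

lemma incl_dense (n : ℕ) : IsDenseInducing (incl n) := by
  have h1 : IsDenseInducing (Prod.map (Subtype.val : XX → KK) (id : SignType → SignType)) :=
    IsDenseInducing.prodMap ⟨IsInducing.subtypeVal, dense_val⟩ ⟨IsInducing.id, denseRange_id⟩
  exact ⟨IsInducing.piMap fun _ => h1.isInducing, DenseRange.piMap fun _ => h1.dense⟩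

/-- `a` is a word in `XX` that agrees with `z` on the coordinates in `J`. -/
def near {n : ℕ} (z : Fin n → KK × SignType) (J : Finset (Set ℕ)) (a : Fin n → XX × SignType) :
    Prop := ∀ i, (a i).2 = (z i).2 ∧ ∀ A ∈ J, (a i).1.1 A = (z i).1 A

lemma near_mem {n : ℕ} (z : Fin n → KK × SignType) (J : Finset (Set ℕ)) :
    {a | near z J a} ∈ comap (incl n) (𝓝 z) := by
  refine ⟨{y | ∀ i, (y i).2 = (z i).2 ∧ ∀ A ∈ J, (y i).1 A = (z i).1 A}, ?_, fun a ha => ha⟩
  change ∀ᶠ y in 𝓝 z, ∀ i, (y i).2 = (z i).2 ∧ ∀ A ∈ J, (y i).1 A = (z i).1 A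
  rw [eventually_all]
  intro i
  refine Eventually.and ?_ ?_
  · have hc : Continuous fun y : Fin n → KK × SignType => (y i).2 :=
      continuous_snd.comp (continuous_apply i)
    have := hc.tendsto z
    rw [nhds_discrete SignType, tendsto_pure] at this
    exact this
  · rw [Finset.eventually_all]
    intro A _
    have hc : Continuous fun y : Fin n → KK × SignType => (y i).1 A :=
      (continuous_apply A).comp (continuous_fst.comp (continuous_apply i))
    have := hc.tendsto z
    rw [nhds_discrete Bool, tendsto_pure] at this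
    exact this

lemma osc {n : ℕ} (h : (Fin n → XX × SignType) → ℝ) (hc : Continuous h)
    (z : Fin n → KK × SignType) (ε : ℝ) (hε : 0 < ε) :
    ∃ J : Finset (Set ℕ), ∀ a b, near z J a → near z J b → |h a - h b| < ε := by
  classical
  by_contra hcon
  push Not at hcon
  choose a b ha hb hab using hcon
  have hJ : ∀ a : Fin n → XX × SignType, ∃ J : Finset (Set ℕ), ∀ a' : Fin n → XX × SignType,
      (∀ i, (a' i).2 = (a i).2 ∧ ∀ A ∈ J, (a' i).1.1 A = (a i).1.1 A) → |h a' - h a| < ε / 3 := by
    intro a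
    have : {a' | |h a' - h a| < ε / 3} ∈ 𝓝 a := by
      filter_upwards [Metric.tendsto_nhds.1 (hc.tendsto a) (ε / 3) (by linarith)] with a' ha'
      rwa [Real.dist_eq] at ha'
    exact mem_nhds_W n a _ this
  choose Jn hJn using hJ
  let st : Finset (Set ℕ) → Finset (Set ℕ) := fun J => J ∪ Jn (a J) ∪ Jn (b J)
  let J : ℕ → Finset (Set ℕ) := fun k => st^[k] ∅
  have hJS : ∀ k, J (k + 1) = J k ∪ Jn (a (J k)) ∪ Jn (b (J k)) := by
    intro k
    exact Function.iterate_succ_apply' st k ∅
  have hmono : Monotone J := by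
    apply monotone_nat_of_le_succ
    intro k
    rw [hJS]
    exact Finset.subset_union_left.trans Finset.subset_union_left
  set C : Set (Set ℕ) := ⋃ k, (J k : Set (Set ℕ)) with hC
  have hCc : C.Countable := countable_iUnion fun k => (J k).countable_toSet
  have hJC : ∀ k, ∀ A ∈ J k, A ∈ C := fun k A hA => mem_iUnion.2 ⟨k, by exact_mod_cast hA⟩
  let p : Fin n → XX × SignType := fun i => (⟨patch C (z i).1, patch_good hCc _⟩, (z i).2)
  let mod : ℕ → (Fin n → XX × SignType) → (Fin n → XX × SignType) := fun k w i =>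
    (⟨patch C (fun A => if A ∈ J (k + 1) then (w i).1.1 A else (z i).1 A), patch_good hCc _⟩,
      (z i).2)
  have hlim : ∀ w : ℕ → Fin n → XX × SignType, (∀ k, near z (J k) (w k)) →
      Tendsto (fun k => mod k (w k)) atTop (𝓝 p) := by
    intro w hw
    rw [tendsto_pi_nhds]
    intro i
    refine Tendsto.prodMk_nhds ?_ tendsto_const_nhds
    rw [tendsto_subtype_rng]
    rw [tendsto_pi_nhds]
    intro A
    by_cases hA : A ∈ C
    · obtain ⟨m, hm⟩ := mem_iUnion.1 hA
      apply tendsto_const_nhds.congr'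
      filter_upwards [eventually_ge_atTop m] with k hk
      have e1 : (p i).1.1 A = (z i).1 A := patch_mem hA _
      have e2 : (mod k (w k) i).1.1 A =
        if A ∈ J (k + 1) then (w k i).1.1 A else (z i).1 A := patch_mem hA
          (fun A => if A ∈ J (k + 1) then (w k i).1.1 A else (z i).1 A)
      change (p i).1.1 A = (mod k (w k) i).1.1 A
      rw [e1, e2]
      split_ifs
      · exact ((hw k i).2 A (hmono hk (by exact_mod_cast hm))).symm
      · rfl
    · apply tendsto_const_nhds.congr
      intro k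
      have e1 : (p i).1.1 A = true := patch_not_mem hA _
      have e2 : (mod k (w k) i).1.1 A = true := patch_not_mem hA
          (fun A => if A ∈ J (k + 1) then (w k i).1.1 A else (z i).1 A)
      change (p i).1.1 A = (mod k (w k) i).1.1 A
      rw [e1, e2]
  have hcl : ∀ (k : ℕ) (w : Fin n → XX × SignType), near z (J k) w → Jn w ⊆ J (k + 1) →
      |h (mod k w) - h w| < ε / 3 := by
    intro k w hw hs
    apply hJn
    intro i
    refine ⟨(hw i).1.symm, fun A hA => ?_⟩
    have e2 : (mod k w i).1.1 A =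
      if A ∈ J (k + 1) then (w i).1.1 A else (z i).1 A := patch_mem (hJC _ A (hs hA))
        (fun A => if A ∈ J (k + 1) then (w i).1.1 A else (z i).1 A)
    rw [e2, if_pos (hs hA)]
  have hl1 := (hc.tendsto p).comp (hlim (fun k => a (J k)) fun k => ha _)
  have hl2 := (hc.tendsto p).comp (hlim (fun k => b (J k)) fun k => hb _)
  obtain ⟨k, hk1, hk2⟩ := ((Metric.tendsto_nhds.1 hl1 (ε / 6) (by linarith)).and
    (Metric.tendsto_nhds.1 hl2 (ε / 6) (by linarith))).exists
  simp only [Function.comp_apply, Real.dist_eq] at hk1 hk2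
  have hk3 := hcl k (a (J k)) (ha _) (by
    rw [hJS]; exact Finset.subset_union_right.trans Finset.subset_union_left)
  have hk4 := hcl k (b (J k)) (hb _) (by rw [hJS]; exact Finset.subset_union_right)
  have hk5 := hab (J k)
  rw [abs_lt] at hk1 hk2 hk3 hk4
  rcases le_abs.1 hk5 with h5 | h5 <;> linarith [hk1.1, hk1.2, hk2.1, hk2.2, hk3.1, hk3.2, hk4.1, hk4.2]

lemma extend_lemma {n : ℕ} (h : (Fin n → XX × SignType) → ℝ) (hc : Continuous h) :
    ∃ E : (Fin n → KK × SignType) → ℝ, Continuous E ∧ ∀ a, E (incl n a) = h a := by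
  refine ⟨(incl_dense n).extend h, (incl_dense n).continuous_extend ?_,
    fun a => (incl_dense n).extend_eq hc a⟩
  intro z
  have _ : NeBot (comap (incl n) (𝓝 z)) := (incl_dense n).comap_nhds_neBot z
  rw [← cauchy_map_iff_exists_tendsto, Metric.cauchy_iff]
  refine ⟨inferInstance, fun ε hε => ?_⟩
  obtain ⟨J, hJ⟩ := osc h hc z ε hε
  refine ⟨h '' {a | near z J a}, image_mem_map (near_mem z J), ?_⟩
  rintro _ ⟨a, ha, rfl⟩ _ ⟨b, hb, rfl⟩
  rw [Real.dist_eq]
  exact hJ a b ha hb

end space

/-- `Y` is a `k_R`-space: every real function on `Y` that is continuous on each compact subset is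
continuous. -/
def IsKR (Y : Type) [TopologicalSpace Y] : Prop :=
  ∀ f : Y → ℝ, (∀ K : Set Y, IsCompact K → ContinuousOn f K) → Continuous f

/-- `F`, with `i : X → F`, is the free topological group (in the sense of Markov) of `X`: it is a
topological group, `i` is a homeomorphism of `X` onto a subspace of `F` that generates the group
`F`, and every continuous map from `X` to a topological group `G` extends uniquely to a continuous
homomorphism `F → G`. -/
structure IsFreeTopGroup (X : Type) [TopologicalSpace X] (F : Type) [Group F] [TopologicalSpace F]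
    (i : X → F) : Prop where
  isTopologicalGroup : IsTopologicalGroup F
  isEmbedding : IsEmbedding i
  generates : Subgroup.closure (range i) = ⊤
  universal : ∀ (G : Type) [Group G] [TopologicalSpace G] [IsTopologicalGroup G] (f : X → G),
    Continuous f → ∃! φ : F →* G, Continuous φ ∧ ∀ x, φ (i x) = f x

section free

/-- The free group with the finest group topology making the inclusion of generators
continuous. -/
def FT (X : Type) : Type := FreeGroup X

instance (X : Type) : Group (FT X) := inferInstanceAs (Group (FreeGroup X))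

/-- The generators. -/
def fgen {X : Type} (x : X) : FT X := (FreeGroup.of x : FreeGroup X)

/-- The free group topology. -/
def gtop (X : Type) [TopologicalSpace X] : GroupTopology (FT X) := GroupTopology.coinduced fgen

instance (X : Type) [TopologicalSpace X] : TopologicalSpace (FT X) := (gtop X).toTopologicalSpace

instance (X : Type) [TopologicalSpace X] : IsTopologicalGroup (FT X) :=
  (gtop X).toIsTopologicalGroup

lemma fgen_continuous {X : Type} [TopologicalSpace X] : Continuous (fgen : X → FT X) :=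
  GroupTopology.coinduced_continuous _

/-- The homomorphism extending a map on generators. -/
def ff {X : Type} {G : Type*} [Group G] (φ : X → G) : FT X →* G :=
  (FreeGroup.lift φ : FreeGroup X →* G)

lemma ff_gen {X : Type} {G : Type*} [Group G] (φ : X → G) (x : X) : ff φ (fgen x) = φ x :=
  FreeGroup.lift_apply_of

lemma fhom_ext {X : Type} {G : Type*} [Group G] {f g : FT X →* G}
    (h : ∀ x, f (fgen x) = g (fgen x)) : f = g := by
  have : (f : FreeGroup X →* G) = (g : FreeGroup X →* G) := FreeGroup.ext_hom _ _ h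
  exact this

lemma ff_continuous {X : Type} [TopologicalSpace X] {G : Type*} [Group G] [TopologicalSpace G]
    [IsTopologicalGroup G] (φ : X → G) (hφ : Continuous φ) : Continuous (ff φ) := by
  rw [continuous_iff_le_induced]
  let b : GroupTopology (FT X) :=
    { TopologicalSpace.induced (ff φ) inferInstance with
      toIsTopologicalGroup := topologicalGroup_induced (ff φ) }
  have hb : gtop X ≤ b := by
    apply sInf_le
    change TopologicalSpace.coinduced fgen _ ≤ TopologicalSpace.induced (ff φ) _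
    rw [← continuous_iff_coinduced_le, continuous_induced_rng]
    have : (ff φ : FT X → G) ∘ fgen = φ := by
      funext x
      exact ff_gen φ x
    rw [this]
    exact hφ
  exact hb

/-- The identity, from the direct limit topology to the free topology. -/
def idw {X : Type} : WG X →* FT X := lf fgen

lemma idw_apply {X : Type} (w : FreeGroup X) : (idw w : FreeGroup X) = w := by
  exact FreeGroup.lift_of_apply w

lemma idw_surj {X : Type} (w : FT X) : ∃ w' : WG X, idw w' = w := ⟨w, idw_apply w⟩

lemma idw_gen {X : Type} (x : X) : idw (gen x) = fgen x := lf_gen _ _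

lemma idw_continuous {X : Type} [TopologicalSpace X] : Continuous (idw : WG X → FT X) :=
  continuous_lift _ fgen_continuous

lemma gen_continuous {K : Type} [TopologicalSpace K] : Continuous (gen : K → WG K) := by
  have h : (gen : K → WG K) = fun x => q 1 (fun _ => (x, 1)) := by
    funext x
    simp [q, val, gen]
  rw [h]
  exact (continuous_q 1).comp (continuous_pi fun _ => continuous_id.prodMk continuous_const)

/-- The homomorphism induced by the inclusion `XX → KK`. -/
def JJ : FT XX →* WG KK := ff fun x => gen x.1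

lemma JJ_continuous : Continuous JJ := ff_continuous _ (gen_continuous.comp continuous_subtype_val)

lemma JJ_gen (x : XX) : JJ (fgen x) = gen x.1 := ff_gen _ _

lemma JJ_idw (w : WG XX) : JJ (idw w) = mp Subtype.val w := by
  have : JJ.comp idw = mp Subtype.val := hom_ext fun x => by
    rw [MonoidHom.comp_apply, idw_gen, JJ_gen, mp_gen]
  rw [← this]
  rfl

lemma mp_injective {K L : Type} {g : K → L} (hg : Function.Injective g) :
    Function.Injective (mp g) := by
  exact FreeGroup.map_injective hg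

lemma JJ_injective : Function.Injective JJ := by
  intro a b h
  obtain ⟨a, rfl⟩ := idw_surj a
  obtain ⟨b, rfl⟩ := idw_surj b
  rw [JJ_idw, JJ_idw] at h
  rw [mp_injective Subtype.val_injective h]

/-- The free topological group of `XX` is a `k_R`-space. -/
theorem FT_isKR : IsKR (FT XX) := by
  intro f hf
  have h1 : ∀ n : ℕ, Continuous fun a : Fin n → XX × SignType => f (idw (q n a)) := by
    intro n
    rw [continuous_iff_continuousAt]
    intro a
    obtain ⟨L, hL, hLa⟩ := exists_compact_mem_nhds a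
    have hg : Continuous fun a : Fin n → XX × SignType => (idw (q n a) : FT XX) :=
      idw_continuous.comp (continuous_q n)
    exact (((hf _ (hL.image hg)).comp hg.continuousOn (mapsTo_image _ L))).continuousAt hLa
  choose E hE hEi using fun n => extend_lemma _ (h1 n)
  have hcompat : ∀ (n m : ℕ) (v : Fin n → KK × SignType) (v' : Fin m → KK × SignType),
      (q n v : WG KK) = q m v' → E n v = E m v' := by
    intro n m v v' hvv
    have hd : DenseRange (Pi.map (fun _ : KK => (Subtype.val : XX → KK))) :=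
      DenseRange.piMap fun _ => dense_val
    have hc : ∀ (n : ℕ) (v : Fin n → KK × SignType),
        Continuous fun σ : KK → KK => E n (fun i => (σ (v i).1, (v i).2)) := by
      intro n v
      exact (hE n).comp (continuous_pi fun i => (continuous_apply (v i).1).prodMk continuous_const)
    have he : ∀ (n : ℕ) (v : Fin n → KK × SignType) (ρ : KK → XX),
        E n (fun i => ((ρ (v i).1).1, (v i).2)) = f (idw (mp ρ (q n v))) := by
      intro n v ρ
      have := hEi n (fun i => (ρ (v i).1, (v i).2))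
      rw [map_q, ← this]
      rfl
    have hfun := hd.equalizer (hc n v) (hc m v') (by
      funext ρ
      change E n (fun i => ((ρ (v i).1).1, (v i).2)) = E m (fun i => ((ρ (v' i).1).1, (v' i).2))
      rw [he, he, hvv])
    exact congrFun hfun id
  choose nn vv hv using fun w : WG KK => q_surj w
  let g : WG KK → ℝ := fun w => E (nn w) (vv w)
  have hg : ∀ (n : ℕ) (v : Fin n → KK × SignType), g (q n v) = E n v := by
    intro n v
    exact hcompat _ _ _ _ (hv (q n v))
  have hgc : Continuous g := by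
    rw [continuous_iff_q]
    intro n
    have : (fun v : Fin n → KK × SignType => g (q n v)) = E n := funext fun v => hg n v
    rw [this]
    exact hE n
  have hfg : f = g ∘ JJ := by
    funext w
    obtain ⟨w, rfl⟩ := idw_surj w
    obtain ⟨n, a, rfl⟩ := q_surj w
    rw [Function.comp_apply, JJ_idw, map_q, hg, ← hEi n a]
    rfl
  rw [hfg]
  exact hgc.comp JJ_continuous

lemma gen_injective {K : Type} : Function.Injective (gen : K → WG K) := by
  exact FreeGroup.of_injective

lemma fgen_isEmbedding : IsEmbedding (fgen : XX → FT XX) := by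
  refine IsEmbedding.of_comp fgen_continuous JJ_continuous ?_
  have : (JJ : FT XX → WG KK) ∘ fgen = gen ∘ Subtype.val := by
    funext x
    exact JJ_gen x
  rw [this]
  exact ((gen_continuous.isClosedEmbedding gen_injective).isEmbedding).comp
    IsEmbedding.subtypeVal

theorem FT_free : IsFreeTopGroup XX (FT XX) fgen where
  isTopologicalGroup := inferInstance
  isEmbedding := fgen_isEmbedding
  generates := by
    exact FreeGroup.closure_range_of XX
  universal := by
    intro G _ _ _ f hf
    refine ⟨ff f, ⟨ff_continuous f hf, ff_gen f⟩, ?_⟩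
    rintro φ ⟨-, hφ⟩
    exact fhom_ext fun x => by rw [hφ, ff_gen]

end free

section sub

/-- The conditions for an ultrafilter. -/
def ult (x : KK) : Prop :=
  x ∅ = false ∧ (∀ A B, x (A ∩ B) = (x A && x B))

lemma isClosed_ult : IsClosed {x : KK | ult x} := by
  have he : {x : KK | ult x} = {x : KK | x ∅ = false} ∩
      ((⋂ A : Set ℕ, ⋂ B : Set ℕ, {x : KK | x (A ∩ B) = (x A && x B)})) := by
    ext x
    simp only [ult, mem_inter_iff, mem_iInter]
    rfl
  rw [he]
  refine (isClosed_eq (continuous_apply _) continuous_const).inter ?_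
  refine isClosed_iInter fun A => isClosed_iInter fun B => isClosed_eq (continuous_apply _) ?_
  exact (continuous_of_discreteTopology (f := fun b : Bool × Bool => b.1 && b.2)).comp
      ((continuous_apply (A := fun _ : Set ℕ => Bool) A).prodMk (continuous_apply B))

/-- The principal ultrafilters. -/
noncomputable def pr (n : ℕ) : KK := by
  classical exact fun A => decide (n ∈ A)

lemma pr_true {n : ℕ} {A : Set ℕ} : pr n A = true ↔ n ∈ A := by
  classical exact decide_eq_true_iff

lemma pr_not_bad (n : ℕ) : ¬ bad (pr n) := by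
  intro h
  have h1 := h.2.2.2 n
  have h2 : pr n {n} = true := pr_true.2 rfl
  rw [h1] at h2
  exact absurd h2 (by decide)

/-- The principal ultrafilters, as points of the space. -/
noncomputable def ee (n : ℕ) : XX := ⟨pr n, pr_not_bad n⟩

lemma pr_injective : Function.Injective pr := by
  intro a b h
  have h1 : pr a {a} = true := pr_true.2 rfl
  rw [h] at h1
  exact (pr_true.1 h1).symm

lemma eq_pr {x : KK} (hx : ult x) {n : ℕ} (hn : x {n} = true) : x = pr n := by
  funext A
  by_cases h : n ∈ A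
  · have h1 : ({n} : Set ℕ) ∩ A = {n} := by
      ext m
      constructor
      · rintro ⟨h1, -⟩
        exact h1
      · rintro rfl
        exact ⟨rfl, h⟩
    have h2 := hx.2 {n} A
    rw [h1, hn] at h2
    rw [pr_true.2 h]
    simpa using h2.symm
  · have h1 : ({n} : Set ℕ) ∩ A = ∅ := by
      ext m
      constructor
      · rintro ⟨h1, h2⟩
        rw [mem_singleton_iff.1 h1] at h2
        exact absurd h2 h
      · rintro ⟨⟩
    have h2 := hx.2 {n} A
    rw [h1, hx.1, hn] at h2
    have h3 : x A = false := by simpa using h2.symm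
    have h4 : pr n A = false := by
      rw [Bool.eq_false_iff]
      intro h5
      exact h (pr_true.1 h5)
    rw [h3, h4]

/-- The closure of the set of principal ultrafilters. -/
def BB : Set KK := closure (range pr)

lemma mem_BB_iff (x : XX) : x.1 ∈ BB ↔ x ∈ range ee := by
  constructor
  · intro hx
    have h0 : ∀ (P : KK → Prop), IsClosed {x | P x} → (∀ n, P (pr n)) → P x.1 := by
      intro P hP hn
      have : closure (range pr) ⊆ {x | P x} := by
        apply closure_minimal _ hP
        rintro _ ⟨n, rfl⟩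
        exact hn n
      exact this hx
    have h1 : ult x.1 := by
      apply h0 ult isClosed_ult
      intro n
      constructor
      · rw [Bool.eq_false_iff]
        intro h
        exact absurd (pr_true.1 h) (by simp)
      · intro A B
        rw [Bool.eq_iff_iff, Bool.and_eq_true, pr_true, pr_true, pr_true]
        exact Iff.rfl
    have h2 : ∀ A, x.1 Aᶜ = !(x.1 A) := by
      intro A
      apply h0 (fun x => x Aᶜ = !(x A))
      · exact isClosed_eq (continuous_apply _)
          ((continuous_of_discreteTopology (f := fun b : Bool => !b)).comp (continuous_apply A))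
      · intro n
        rw [Bool.eq_iff_iff, Bool.not_eq_true', ← Bool.not_eq_true, pr_true, pr_true]
        exact Iff.rfl
    have h3 : ∃ n : ℕ, x.1 {n} = true := by
      by_contra hcon
      push Not at hcon
      exact x.2 ⟨h1.1, h2, h1.2, fun n => by simpa using hcon n⟩
    obtain ⟨n, hn⟩ := h3
    exact ⟨n, Subtype.ext (eq_pr h1 hn).symm⟩
  · rintro ⟨n, rfl⟩
    exact subset_closure ⟨n, rfl⟩

/-- The retraction of the space onto the principal ultrafilters. -/
noncomputable def r' (x : XX) : XX := by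
  classical exact if x.1 ∈ BB then x else ee 0

/-- The retraction of the cube onto the closure of the principal ultrafilters. -/
noncomputable def rr (x : KK) : KK := by
  classical exact if x ∈ BB then x else pr 0

lemma rr_val (x : XX) : rr x.1 = (r' x).1 := by
  unfold rr r'
  split_ifs
  · rfl
  · rfl

lemma rr_mem (x : KK) : rr x ∈ BB := by
  unfold rr
  split_ifs with h
  · exact h
  · exact subset_closure ⟨0, rfl⟩

lemma rr_of_mem {x : KK} (h : x ∈ BB) : rr x = x := if_pos h

/-- The induced endomorphism. -/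
noncomputable def R' : FT XX →* FT XX := ff fun x => fgen (r' x)

/-- The subgroup: words in the principal ultrafilters. -/
noncomputable def HH : Subgroup (FT XX) := MonoidHom.eqLocus R' (MonoidHom.id _)

lemma mem_HH {w : FT XX} : w ∈ HH ↔ R' w = w := Iff.rfl

lemma JJ_R' (w : FT XX) : JJ (R' w) = mp rr (JJ w) := by
  have : JJ.comp R' = (mp rr).comp JJ := fhom_ext fun x => by
    rw [MonoidHom.comp_apply, MonoidHom.comp_apply, JJ_gen, mp_gen]
    unfold R'
    rw [ff_gen, JJ_gen, rr_val]
  exact DFunLike.congr_fun this w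

/-- The fixed words in the cube. -/
def TT : Set (WG KK) := {w | mp rr w = w}

lemma isClosed_TT : IsClosed TT := by
  rw [← isOpen_compl_iff, isOpen_iff']
  intro n
  rw [preimage_compl, isOpen_compl_iff]
  have he : (q n : (Fin n → KK × SignType) → WG KK) ⁻¹' TT =
      q n ⁻¹' ((q n) '' {v : Fin n → KK × SignType | ∀ i, (v i).1 ∈ BB}) := by
    ext v
    constructor
    · intro hv
      refine ⟨fun i => (rr (v i).1, (v i).2), fun i => rr_mem _, ?_⟩
      rw [← map_q]
      exact hv
    · rintro ⟨v', hv', he⟩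
      change mp rr (q n v) = q n v
      rw [← he, map_q]
      congr 1
      funext i
      rw [rr_of_mem (hv' i)]
  rw [he]
  apply IsClosed.preimage (continuous_q n)
  apply IsCompact.isClosed
  apply IsCompact.image _ (continuous_q n)
  apply IsClosed.isCompact
  have : {v : Fin n → KK × SignType | ∀ i, (v i).1 ∈ BB} =
      ⋂ i, (fun v : Fin n → KK × SignType => (v i).1) ⁻¹' BB := by
    ext v
    simp only [mem_iInter]
    rfl
  rw [this]
  exact isClosed_iInter fun i => isClosed_closure.preimage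
    (continuous_fst.comp (continuous_apply i))

lemma HH_eq : (HH : Set (FT XX)) = JJ ⁻¹' TT := by
  ext w
  change R' w = w ↔ mp rr (JJ w) = JJ w
  rw [← JJ_R']
  exact ⟨fun h => by rw [h], fun h => JJ_injective h⟩

lemma isClosed_HH : IsClosed (HH : Set (FT XX)) := by
  rw [HH_eq]
  exact isClosed_TT.preimage JJ_continuous

lemma HH_range {w : FT XX} (hw : w ∈ HH) : ∃ u : WG ℕ, mp pr u = JJ w := by
  have hs : ∀ x : XX, ∃ n : ℕ, r' x = ee n := by
    intro x
    unfold r'
    split_ifs with h
    · obtain ⟨n, hn⟩ := (mem_BB_iff x).1 h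
      exact ⟨n, hn.symm⟩
    · exact ⟨0, rfl⟩
  choose s hs using hs
  obtain ⟨w', hw'⟩ := idw_surj w
  refine ⟨mp s w', ?_⟩
  have h1 : (JJ.comp R').comp idw = (mp pr).comp (mp s) := hom_ext fun x => by
    rw [MonoidHom.comp_apply, MonoidHom.comp_apply, MonoidHom.comp_apply, idw_gen, mp_gen, mp_gen]
    unfold R'
    rw [ff_gen, JJ_gen, hs]
    rfl
  have h2 := DFunLike.congr_fun h1 w'
  rw [MonoidHom.comp_apply, MonoidHom.comp_apply, MonoidHom.comp_apply, hw', mem_HH.1 hw] at h2
  exact h2.symm

end sub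

section combi

lemma subseq1 (b : ℕ → ℕ) : ∃ θ : ℕ → ℕ, StrictMono θ ∧
    ((∃ c, ∀ k, b (θ k) = c) ∨ StrictMono fun k => b (θ k)) := by
  by_cases h : ∃ c, ∃ᶠ k in atTop, b k = c
  · obtain ⟨c, hc⟩ := h
    obtain ⟨θ, h1, h2⟩ := extraction_of_frequently_atTop hc
    exact ⟨θ, h1, Or.inl ⟨c, h2⟩⟩
  · push Not at h
    have ht : Tendsto b atTop atTop := by
      rw [tendsto_atTop]
      intro c
      have h1 : ∀ᶠ k in atTop, ∀ d ∈ Finset.range c, b k ≠ d := by
        rw [Finset.eventually_all]
        intro d _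
        exact h d
      filter_upwards [h1] with k hk
      by_contra hlt
      exact hk (b k) (Finset.mem_range.2 (by omega)) rfl
    obtain ⟨θ, h1, h2⟩ := strictMono_subseq_of_tendsto_atTop ht
    exact ⟨θ, h1, Or.inr h2⟩

lemma subseqs {ι : Type*} (s : Finset ι) (b : ℕ → ι → ℕ) : ∃ θ : ℕ → ℕ, StrictMono θ ∧
    ∀ i ∈ s, (∃ c, ∀ k, b (θ k) i = c) ∨ StrictMono fun k => b (θ k) i := by
  classical
  induction s using Finset.induction_on with
  | empty => exact ⟨id, strictMono_id, by simp⟩
  | insert a s ha ih =>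
    obtain ⟨θ, h1, h2⟩ := ih
    obtain ⟨η, h3, h4⟩ := subseq1 (fun k => b (θ k) a)
    refine ⟨θ ∘ η, h1.comp h3, ?_⟩
    intro i hi
    rcases Finset.mem_insert.1 hi with rfl | hi
    · exact h4
    · rcases h2 i hi with ⟨c, hc⟩ | h5
      · exact Or.inl ⟨c, fun k => hc _⟩
      · exact Or.inr (h5.comp h3)

lemma combi {l : ℕ} (W : ℕ → Fin l → ℕ × Bool) (hinj : Function.Injective W) :
    ∃ V : ℕ → Fin l → ℕ × Bool, (∀ k, ∃ j, V k = W j) ∧ (∀ k i, (V k i).2 = (V 0 i).2) ∧
      (∀ k i i', (V k i).1 = (V k i').1 ↔ (V 0 i).1 = (V 0 i').1) ∧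
      ∃ New : Finset (Fin l), New.Nonempty ∧ (∀ i, i ∉ New → ∀ k, (V k i).1 = (V 0 i).1) ∧
        (∀ i ∈ New, ∀ k, k ≤ (V k i).1) ∧
        ∀ k k', k < k' → ∀ i, ∀ i' ∈ New, (V k i).1 < (V k' i').1 := by
  classical
  let b : ℕ → (Fin l ⊕ Fin l ⊕ (Fin l × Fin l)) → ℕ := fun k => Sum.elim (fun i => (W k i).1)
    (Sum.elim (fun i => if (W k i).2 then 1 else 0)
      (fun p => if (W k p.1).1 = (W k p.2).1 then 1 else 0))
  obtain ⟨θ, hθ, hb⟩ := subseqs Finset.univ b
  have hbd : ∀ i, (∀ k, b k i ≤ 1) → ∀ k, b (θ k) i = b (θ 0) i := by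
    intro i hi k
    rcases hb i (Finset.mem_univ i) with ⟨c, hc⟩ | h
    · rw [hc, hc]
    · exfalso
      have h1 : b (θ 0) i < b (θ 1) i := h (by norm_num)
      have h2 : b (θ 1) i < b (θ 2) i := h (by norm_num)
      have h3 := hi (θ 2)
      omega
  have hs : ∀ k i, (W (θ k) i).2 = (W (θ 0) i).2 := by
    intro k i
    have h := hbd (Sum.inr (Sum.inl i)) (by intro k; simp only [b, Sum.elim_inr, Sum.elim_inl];
                                             split_ifs <;> omega) k
    simp only [b, Sum.elim_inr, Sum.elim_inl] at h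
    cases h1 : (W (θ k) i).2 <;> cases h2 : (W (θ 0) i).2 <;> simp [h1, h2] at h ⊢
  have hp : ∀ k i i', (W (θ k) i).1 = (W (θ k) i').1 ↔ (W (θ 0) i).1 = (W (θ 0) i').1 := by
    intro k i i'
    have h := hbd (Sum.inr (Sum.inr (i, i'))) (by intro k; simp only [b, Sum.elim_inr];
                                                   split_ifs <;> omega) k
    simp only [b, Sum.elim_inr] at h
    by_cases h1 : (W (θ k) i).1 = (W (θ k) i').1 <;>
      by_cases h2 : (W (θ 0) i).1 = (W (θ 0) i').1 <;> simp [h1, h2] at h ⊢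
  let New : Finset (Fin l) := Finset.univ.filter fun i => StrictMono fun k => (W (θ k) i).1
  have hNew : ∀ i, i ∈ New ↔ StrictMono fun k => (W (θ k) i).1 := fun i => by simp [New]
  have hconst : ∀ i, i ∉ New → ∀ k, (W (θ k) i).1 = (W (θ 0) i).1 := by
    intro i hi k
    rcases hb (Sum.inl i) (Finset.mem_univ _) with ⟨c, hc⟩ | h
    · have h1 := hc k
      have h2 := hc 0
      simp only [b, Sum.elim_inl] at h1 h2
      rw [h1, h2]
    · exact absurd ((hNew i).2 h) hi
  have hne : New.Nonempty := by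
    rw [Finset.nonempty_iff_ne_empty]
    intro he
    have h1 : W (θ 1) = W (θ 0) := by
      funext i
      exact Prod.ext (hconst i (by rw [he]; exact Finset.notMem_empty i) 1) (hs 1 i)
    have h2 := hθ.injective (hinj h1)
    omega
  let f : ℕ → ℕ := fun m => m + 1 + ∑ i, (W (θ m) i).1
  have hf : ∀ m, m < f m := fun m => by simp only [f]; omega
  have hfi : ∀ m i, (W (θ m) i).1 < f m := fun m i => by
    have := Finset.single_le_sum (f := fun i => (W (θ m) i).1) (fun _ _ => Nat.zero_le _)
      (Finset.mem_univ i)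
    simp only [f]
    omega
  let η : ℕ → ℕ := fun k => f^[k] 0
  have hηS : ∀ k, η (k + 1) = f (η k) := fun k => Function.iterate_succ_apply' f k 0
  have hη : StrictMono η := strictMono_nat_of_lt_succ fun k => by rw [hηS]; exact hf _
  refine ⟨fun k => W (θ (η k)), fun k => ⟨_, rfl⟩, fun k i => ?_, fun k i i' => ?_, New, hne,
    fun i hi k => ?_, fun i hi k => ?_, ?_⟩
  · rw [hs, hs (η 0)]
  · rw [hp, hp (η 0)]
  · rw [hconst i hi, hconst i hi (η 0)]
  · have h1 : η k ≤ (W (θ (η k)) i).1 := ((hNew i).1 hi).id_le (η k)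
    have h2 : k ≤ η k := hη.id_le k
    exact h2.trans h1
  · intro k k' hkk i i' hi'
    have h1 := hfi (η k) i
    have h2 : f (η k) ≤ η k' := by
      rw [← hηS]
      exact hη.monotone hkk
    have h3 : η k' ≤ (W (θ (η k')) i').1 := ((hNew i').1 hi').id_le (η k')
    change (W (θ (η k)) i).1 < (W (θ (η k')) i').1
    omega

end combi

section compacts

/-- The word length. -/
def nn (u : WG ℕ) : ℕ := FreeGroup.norm (u : FreeGroup ℕ)

lemma norm_prod_le (L : List (FreeGroup ℕ)) :
    FreeGroup.norm L.prod ≤ (L.map FreeGroup.norm).sum := by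
  induction L with
  | nil => simp
  | cons a L ih =>
    rw [List.prod_cons, List.map_cons, List.sum_cons]
    exact (FreeGroup.norm_mul_le _ _).trans (by omega)

lemma nn_q_le (n : ℕ) (v : Fin n → ℕ × SignType) : nn (q n v) ≤ n := by
  have h1 : nn (q n v) ≤ ((List.ofFn fun i => val (v i)).map FreeGroup.norm).sum :=
    norm_prod_le _
  have h2 : ∀ p : ℕ × SignType, FreeGroup.norm (val p) ≤ 1 := by
    rintro ⟨x, s⟩
    rcases s with _ | _ | _
    · simp [val]
    · simp [val]
    · simp [val]
  rw [List.map_ofFn, List.sum_ofFn] at h1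
  refine h1.trans ((Finset.sum_le_sum (g := fun _ => 1) fun i _ => ?_).trans (by simp))
  exact h2 (v i)

lemma closed_image (S : Set (WG ℕ)) (hS : ∀ N : ℕ, {u ∈ S | nn u ≤ N}.Finite) :
    IsClosed (mp pr '' S : Set (WG KK)) := by
  rw [← isOpen_compl_iff, isOpen_iff']
  intro n
  rw [preimage_compl, isOpen_compl_iff]
  have he : (q n : (Fin n → KK × SignType) → WG KK) ⁻¹' (mp pr '' S) =
      q n ⁻¹' (mp pr '' {u ∈ S | nn u ≤ n}) := by
    ext v
    constructor
    · rintro ⟨u, hu, he⟩
      refine ⟨u, ⟨hu, ?_⟩, he⟩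
      have hs : Function.LeftInverse (Function.invFun pr) pr :=
        Function.leftInverse_invFun pr_injective
      have h1 : mp (Function.invFun pr) (mp pr u) = u := by
        have : (mp (Function.invFun pr)).comp (mp pr) = MonoidHom.id (WG ℕ) := hom_ext fun x => by
          rw [MonoidHom.comp_apply, mp_gen, mp_gen, hs x]
          rfl
        exact DFunLike.congr_fun this u
      rw [← h1, he, map_q]
      exact nn_q_le _ _
    · rintro ⟨u, hu, he⟩
      exact ⟨u, hu.1, he⟩
  rw [he]
  exact ((hS n).image _).isClosed.preimage (continuous_q n)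

lemma exists_extension {G : Type*} [One G] (φ : ℕ → G) (hφ : (range φ).Finite) :
    ∃ Φ : KK → G, (∀ x, ∀ᶠ y in 𝓝 x, Φ y = Φ x) ∧ ∀ n, Φ (pr n) = φ n := by
  classical
  let Ψ : (ℕ → Prop) → G := fun P => if h : ∃ n, P n then φ (Classical.choose h) else 1
  let P : KK → ℕ → Prop := fun x n => ∀ g ∈ range φ, x (φ ⁻¹' {g}) = pr n (φ ⁻¹' {g})
  refine ⟨fun x => Ψ (P x), fun x => ?_, fun n => ?_⟩
  · have h1 : ∀ᶠ y in 𝓝 x, ∀ g ∈ range φ, y (φ ⁻¹' {g}) = x (φ ⁻¹' {g}) := by
      rw [eventually_all_finite hφ]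
      intro g _
      have hc : Continuous fun y : KK => y (φ ⁻¹' {g}) := continuous_apply _
      have := hc.tendsto x
      rw [nhds_discrete Bool, tendsto_pure] at this
      exact this
    filter_upwards [h1] with y hy
    have : P y = P x := by
      funext n
      apply propext
      constructor
      · intro h g hg
        rw [← hy g hg]
        exact h g hg
      · intro h g hg
        rw [hy g hg]
        exact h g hg
    change Ψ (P y) = Ψ (P x)
    rw [this]
  · have hex : ∃ m, P (pr n) m := ⟨n, fun g _ => rfl⟩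
    have h2 : Ψ (P (pr n)) = φ (Classical.choose hex) := dif_pos hex
    change Ψ (P (pr n)) = φ n
    rw [h2]
    have h3 := Classical.choose_spec hex (φ n) ⟨n, rfl⟩
    have h4 : pr n (φ ⁻¹' {φ n}) = true := pr_true.2 rfl
    rw [h4] at h3
    exact pr_true.1 h3.symm

lemma lf_mp {G : Type*} [Group G] (Φ : KK → G) (φ : ℕ → G) (h : ∀ n, Φ (pr n) = φ n) (u : WG ℕ) :
    lf Φ (mp pr u) = lf φ u := by
  have : (lf Φ).comp (mp pr) = lf φ := hom_ext fun x => by
    rw [MonoidHom.comp_apply, mp_gen, lf_gen, lf_gen, h]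
  exact DFunLike.congr_fun this u

/-- The element given by a word. -/
def mk' {l : ℕ} (V : Fin l → ℕ × Bool) : WG ℕ := (FreeGroup.mk (List.ofFn V) : FreeGroup ℕ)

lemma lf_mk' {G : Type*} [Group G] {l : ℕ} (V : Fin l → ℕ × Bool) (φ : ℕ → G) :
    lf φ (mk' V) = (List.ofFn fun i => cond (V i).2 (φ (V i).1) (φ (V i).1)⁻¹).prod := by
  change FreeGroup.lift φ (FreeGroup.mk (List.ofFn V)) = _
  rw [FreeGroup.lift_mk, List.map_ofFn]
  rfl

/-- A compact set of words in the principal ultrafilters is finite. -/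
theorem finite_of_compact (M : Set (WG KK)) (hM : IsCompact M)
    (hsub : ∀ w ∈ M, ∃ u : WG ℕ, mp pr u = w) : M.Finite := by
  classical
  by_contra hinf
  set U : Set (WG ℕ) := {u | mp pr u ∈ M} with hU
  have hUM : M = mp pr '' U := by
    ext w
    constructor
    · intro hw
      obtain ⟨u, rfl⟩ := hsub w hw
      exact ⟨u, hw, rfl⟩
    · rintro ⟨u, hu, rfl⟩
      exact hu
  have hUinf : U.Infinite := by
    intro h
    apply hinf
    rw [hUM]
    exact h.image _
  have step1 : ∃ N : ℕ, {u ∈ U | nn u ≤ N}.Infinite := by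
    by_contra hcon
    push Not at hcon
    have hTinf : (mp pr '' U : Set (WG KK)).Infinite :=
      hUinf.image (mp_injective pr_injective).injOn
    obtain ⟨x, -, hx⟩ := hTinf.exists_accPt_of_subset_isCompact hM (by rw [← hUM])
    rw [accPt_principal_iff_clusterPt, ← mem_closure_iff_clusterPt] at hx
    have h1 : (mp pr '' U) \ {x} = mp pr '' (U \ mp pr ⁻¹' {x}) := by
      ext w
      constructor
      · rintro ⟨⟨u, hu, rfl⟩, hw⟩
        exact ⟨u, ⟨hu, hw⟩, rfl⟩
      · rintro ⟨u, ⟨hu, hw⟩, rfl⟩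
        exact ⟨⟨u, hu, rfl⟩, hw⟩
    have h2 : IsClosed ((mp pr '' U) \ {x} : Set (WG KK)) := by
      rw [h1]
      apply closed_image
      intro N
      exact (hcon N).subset fun u hu => ⟨hu.1.1, hu.2⟩
    rw [h2.closure_eq] at hx
    exact hx.2 rfl
  obtain ⟨N, hN⟩ := step1
  have step2 : ∃ l : ℕ, {u ∈ U | nn u = l}.Infinite := by
    by_contra hcon
    push Not at hcon
    apply hN
    have h1 : (⋃ l ∈ Iic N, {u ∈ U | nn u = l}).Finite :=
      Set.Finite.biUnion (finite_Iic N) fun l _ => hcon l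
    exact h1.subset fun u hu => mem_iUnion₂.2 ⟨nn u, hu.2, hu.1, rfl⟩
  obtain ⟨l, hl⟩ := step2
  let g := hl.natEmbedding
  have hW : ∀ k, ∃ W : Fin l → ℕ × Bool, mk' W = (g k : WG ℕ) ∧
      FreeGroup.IsReduced (List.ofFn W) := by
    intro k
    have h1 : ((g k : WG ℕ) : FreeGroup ℕ).toWord.length = l := (g k).2.2
    refine ⟨fun i => ((g k : WG ℕ) : FreeGroup ℕ).toWord.get (i.cast h1.symm), ?_, ?_⟩
    all_goals
      have h2 : List.ofFn (fun i : Fin l => ((g k : WG ℕ) : FreeGroup ℕ).toWord.get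
          (i.cast h1.symm)) = ((g k : WG ℕ) : FreeGroup ℕ).toWord := by
        apply List.ext_getElem
        · simp [h1]
        · intro i h3 h4
          simp
    · unfold mk'
      rw [h2]
      exact FreeGroup.mk_toWord
    · rw [h2]
      exact FreeGroup.isReduced_toWord
  choose W hW1 hW2 using hW
  have hWinj : Function.Injective W := by
    intro a b hab
    apply g.injective
    apply Subtype.ext
    rw [← hW1, ← hW1, hab]
  obtain ⟨V, hVW, hVs, hVp, New, hne, hconst, hlarge, hfast⟩ := combi W hWinj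
  have hVM : ∀ k, mp pr (mk' (V k)) ∈ M := by
    intro k
    obtain ⟨j, hj⟩ := hVW k
    rw [hj, hW1]
    exact (g j).2.1
  obtain ⟨w, hwM, hw⟩ := hM.exists_mapClusterPt (f := atTop) (u := fun k => mp pr (mk' (V k)))
    (tendsto_principal.2 (Eventually.of_forall hVM))
  obtain ⟨u, rfl⟩ := hsub w hwM
  obtain ⟨n, v, rfl⟩ := q_surj u
  set m : ℕ := ∑ i, (v i).1 + 1 with hm
  have hvm : ∀ i, (v i).1 < m := by
    intro i
    have := Finset.single_le_sum (f := fun i => (v i).1) (fun _ _ => Nat.zero_le _)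
      (Finset.mem_univ i)
    omega
  -- the two colourings
  let φ' : ℕ → FreeGroup ℕ := fun x =>
    if ∃ i, i ∉ New ∧ (V 0 i).1 = x then FreeGroup.of x else 1
  let φ : ℕ → FreeGroup ℕ := fun x =>
    if h : ∃ p : ℕ × Fin l, m ≤ p.1 ∧ p.2 ∈ New ∧ (V p.1 p.2).1 = x then
      FreeGroup.of (V 0 (Classical.choose h).2).1 else φ' x
  have hφ'r : (range φ').Finite := by
    apply ((finite_range fun i => FreeGroup.of (V 0 i).1).insert 1).subset
    rintro _ ⟨x, rfl⟩
    simp only [φ']
    split_ifs with h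
    · obtain ⟨i, -, hi⟩ := h
      right
      exact ⟨i, by simp only [hi]⟩
    · left; rfl
  have hφr : (range φ).Finite := by
    apply ((finite_range fun i => FreeGroup.of (V 0 i).1).union hφ'r).subset
    rintro _ ⟨x, rfl⟩
    by_cases h : ∃ p : ℕ × Fin l, m ≤ p.1 ∧ p.2 ∈ New ∧ (V p.1 p.2).1 = x
    · left
      exact ⟨(Classical.choose h).2, by simp only [φ]; rw [dif_pos h]⟩
    · right
      exact ⟨x, by simp only [φ]; rw [dif_neg h]⟩
  have hagree : ∀ x, x < m → φ x = φ' x := by
    intro x hx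
    have : ¬ ∃ p : ℕ × Fin l, m ≤ p.1 ∧ p.2 ∈ New ∧ (V p.1 p.2).1 = x := by
      rintro ⟨p, h1, h2, h3⟩
      have := hlarge p.2 h2 p.1
      omega
    simp only [φ]
    rw [dif_neg this]
  -- values on new and old letters
  have hnewφ : ∀ k, m ≤ k → ∀ i ∈ New, φ (V k i).1 = FreeGroup.of (V 0 i).1 := by
    intro k hk i hi
    have h : ∃ p : ℕ × Fin l, m ≤ p.1 ∧ p.2 ∈ New ∧ (V p.1 p.2).1 = (V k i).1 :=
      ⟨(k, i), hk, hi, rfl⟩
    simp only [φ]
    rw [dif_pos h]
    obtain ⟨h1, h2, h3⟩ := Classical.choose_spec h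
    set p := Classical.choose h
    have hpk : p.1 = k := by
      rcases lt_trichotomy p.1 k with h4 | h4 | h4
      · have := hfast _ _ h4 p.2 i hi
        omega
      · exact h4
      · have := hfast _ _ h4 i p.2 h2
        omega
    rw [hpk] at h3
    rw [(hVp k _ _).1 h3]
  have hnewφ' : ∀ k, m ≤ k → ∀ i ∈ New, φ' (V k i).1 = 1 := by
    intro k hk i hi
    have : ¬ ∃ j, j ∉ New ∧ (V 0 j).1 = (V k i).1 := by
      rintro ⟨j, -, h2⟩
      have := hfast 0 k (by omega) j i hi
      omega
    simp only [φ']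
    rw [if_neg this]
  have holdφ' : ∀ k, ∀ i, i ∉ New → φ' (V k i).1 = FreeGroup.of (V 0 i).1 := by
    intro k i hi
    rw [hconst i hi k]
    simp only [φ']
    rw [if_pos ⟨i, hi, rfl⟩]
  have holdφ : ∀ k, ∀ i, i ∉ New → φ (V k i).1 = FreeGroup.of (V 0 i).1 := by
    intro k i hi
    have : ¬ ∃ p : ℕ × Fin l, m ≤ p.1 ∧ p.2 ∈ New ∧ (V p.1 p.2).1 = (V k i).1 := by
      rintro ⟨p, h1, h2, h3⟩
      rw [hconst i hi k] at h3
      have := hfast 0 p.1 (by omega) i p.2 h2
      omega
    simp only [φ]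
    rw [dif_neg this]
    exact holdφ' k i hi
  have hval : ∀ k, m ≤ k → lf φ (mk' (V k)) = (mk' (V 0) : FreeGroup ℕ) := by
    intro k hk
    have h1 : (mk' (V 0) : FreeGroup ℕ) = FreeGroup.lift FreeGroup.of (mk' (V 0)) :=
      (FreeGroup.lift_of_apply _).symm
    have h2 : FreeGroup.lift FreeGroup.of (mk' (V 0)) =
      (List.ofFn fun i => cond (V 0 i).2 (FreeGroup.of (V 0 i).1)
        (FreeGroup.of (V 0 i).1)⁻¹).prod := lf_mk' (V 0) FreeGroup.of
    rw [lf_mk', h1, h2]
    congr 2
    funext i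
    have h3 : φ (V k i).1 = FreeGroup.of (V 0 i).1 := by
      by_cases hi : i ∈ New
      · exact hnewφ k hk i hi
      · exact holdφ k i hi
    rw [h3, hVs k i]
  set D : FreeGroup ℕ := (List.ofFn fun i => if i ∈ New then (1 : FreeGroup ℕ) else
    cond (V 0 i).2 (FreeGroup.of (V 0 i).1) (FreeGroup.of (V 0 i).1)⁻¹).prod with hD
  have hval' : ∀ k, m ≤ k → lf φ' (mk' (V k)) = D := by
    intro k hk
    rw [lf_mk', hD]
    congr 2
    funext i
    by_cases hi : i ∈ New
    · rw [if_pos hi, hnewφ' k hk i hi]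
      cases (V k i).2 <;> simp
    · rw [if_neg hi, holdφ' k i hi, hVs k i]
  -- cluster point
  have hcl : ∀ (ψ : ℕ → FreeGroup ℕ), (range ψ).Finite → ∀ c : FreeGroup ℕ,
      (∀ k, m ≤ k → lf ψ (mk' (V k)) = c) → lf ψ (q n v) = c := by
    intro ψ hψ c hc
    obtain ⟨Ψ, hΨ1, hΨ2⟩ := exists_extension ψ hψ
    have h1 := lift_locConst Ψ hΨ1 (mp pr (q n v))
    have h2 := (mapClusterPt_iff_frequently.1 hw) _ h1
    obtain ⟨k, hk1, hk2⟩ := (h2.and_eventually (eventually_ge_atTop m)).exists
    have hk1' : lf Ψ (mp pr (mk' (V k))) = lf Ψ (mp pr (q n v)) := hk1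
    rw [lf_mp Ψ ψ hΨ2, lf_mp Ψ ψ hΨ2] at hk1'
    rw [← hk1', hc k hk2]
  have e1 := hcl φ hφr _ hval
  have e2 := hcl φ' hφ'r _ hval'
  have e3 : lf φ (q n v) = lf φ' (q n v) := by
    rw [lift_q, lift_q]
    congr 2
    funext i
    rw [hagree _ (hvm i)]
  have e4 : (mk' (V 0) : FreeGroup ℕ) = D := by rw [← e1, e3, e2]
  have e5 : FreeGroup.norm (mk' (V 0) : FreeGroup ℕ) = l := by
    obtain ⟨j, hj⟩ := hVW 0
    rw [hj]
    change (FreeGroup.toWord (FreeGroup.mk (List.ofFn (W j)))).length = l
    rw [FreeGroup.toWord_mk, (hW2 j).reduce_eq, List.length_ofFn]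
  have e6 : FreeGroup.norm D < l := by
    have h1 := norm_prod_le (List.ofFn fun i => if i ∈ New then (1 : FreeGroup ℕ) else
      cond (V 0 i).2 (FreeGroup.of (V 0 i).1) (FreeGroup.of (V 0 i).1)⁻¹)
    rw [List.map_ofFn, List.sum_ofFn] at h1
    refine lt_of_le_of_lt h1 ?_
    obtain ⟨i0, hi0⟩ := hne
    have h2 : ∑ i : Fin l, (FreeGroup.norm ∘ fun i => if i ∈ New then (1 : FreeGroup ℕ) else
        cond (V 0 i).2 (FreeGroup.of (V 0 i).1) (FreeGroup.of (V 0 i).1)⁻¹) i <
        ∑ i : Fin l, 1 := by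
      apply Finset.sum_lt_sum
      · intro i _
        simp only [Function.comp_apply]
        split_ifs with h
        · simp
        · cases (V 0 i).2 <;> simp
      · refine ⟨i0, Finset.mem_univ _, ?_⟩
        simp only [Function.comp_apply, if_pos hi0]
        simp
    simpa using h2
  rw [← e4, e5] at e6
  exact lt_irrefl _ e6

end compacts

section final

/-- Neighbourhoods of `1` contain a quotient of two different generators from `range ee`. -/
lemma exists_pair (V : Set (FT XX)) (hV : V ∈ 𝓝 (1 : FT XX)) :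
    ∃ i j : ℕ, i ≠ j ∧ (fgen (ee i))⁻¹ * fgen (ee j) ∈ V := by
  classical
  have hc : Continuous fun p : (FT XX × FT XX) × (FT XX × FT XX) =>
      p.1.1 * p.1.2⁻¹ * p.2.1 * p.2.2⁻¹ := by fun_prop
  have h1 : (fun p : (FT XX × FT XX) × (FT XX × FT XX) =>
      p.1.1 * p.1.2⁻¹ * p.2.1 * p.2.2⁻¹) ⁻¹' V ∈ 𝓝 (((1, 1), (1, 1)) :
        (FT XX × FT XX) × (FT XX × FT XX)) := by
    apply hc.continuousAt
    simpa using hV
  obtain ⟨U, hU, hUV⟩ : ∃ U ∈ 𝓝 (1 : FT XX), ∀ a ∈ U, ∀ b ∈ U, ∀ c ∈ U, ∀ d ∈ U,
      a * b⁻¹ * c * d⁻¹ ∈ V := by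
    rw [nhds_prod_eq, mem_prod_iff] at h1
    obtain ⟨s, hs, t, ht, hst⟩ := h1
    rw [nhds_prod_eq, mem_prod_iff] at hs ht
    obtain ⟨s1, hs1, s2, hs2, hs⟩ := hs
    obtain ⟨t1, ht1, t2, ht2, ht⟩ := ht
    refine ⟨s1 ∩ s2 ∩ (t1 ∩ t2), inter_mem (inter_mem hs1 hs2) (inter_mem ht1 ht2), ?_⟩
    intro a ha b hb c hc d hd
    exact hst (mk_mem_prod (hs (mk_mem_prod ha.1.1 hb.1.2)) (ht (mk_mem_prod hc.2.1 hd.2.2)))
  have hq : ∀ x : XX, ∀ᶠ y in 𝓝 x, (fgen x)⁻¹ * fgen y ∈ U := by
    intro x
    have hcx : Continuous fun y : XX => (fgen x)⁻¹ * fgen y :=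
      continuous_const.mul fgen_continuous
    apply hcx.continuousAt
    simpa using hU
  have hJ : ∀ i : ℕ, ∃ J : Finset (Set ℕ), ∀ y : XX, (∀ A ∈ J, y.1 A = (ee i).1 A) →
      (fgen (ee i))⁻¹ * fgen y ∈ U := fun i => mem_nhds_X (ee i) _ (hq (ee i))
  choose J hJ using hJ
  set C : Set (Set ℕ) := ⋃ k, (J k : Set (Set ℕ)) with hC
  have hCc : C.Countable := countable_iUnion fun k => (J k).countable_toSet
  let e' : ℕ → XX := fun i => ⟨patch C (pr i), patch_good hCc _⟩
  let p0 : KK := fun A => decide (A ∈ hyperfilter ℕ)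
  let p : XX := ⟨patch C p0, patch_good hCc _⟩
  have he' : ∀ i, (fgen (ee i))⁻¹ * fgen (e' i) ∈ U := by
    intro i
    apply hJ
    intro A hA
    exact patch_mem (mem_iUnion.2 ⟨i, by exact_mod_cast hA⟩) _
  have hlim : Tendsto e' (hyperfilter ℕ) (𝓝 p) := by
    rw [tendsto_subtype_rng, tendsto_pi_nhds]
    intro A
    rw [nhds_discrete Bool, tendsto_pure]
    by_cases hA : A ∈ C
    · have e1 : p.1 A = p0 A := patch_mem hA p0
      rw [e1]
      by_cases hu : A ∈ hyperfilter ℕ
      · filter_upwards [hu] with i hi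
        have e2 : (e' i).1 A = pr i A := patch_mem hA _
        rw [e2, pr_true.2 hi]
        exact (decide_eq_true hu).symm
      · have hu' : Aᶜ ∈ hyperfilter ℕ := Ultrafilter.compl_mem_iff_notMem.2 hu
        filter_upwards [hu'] with i hi
        have e2 : (e' i).1 A = pr i A := patch_mem hA _
        have e3 : pr i A = false := by
          rw [Bool.eq_false_iff]
          intro h
          exact hi (pr_true.1 h)
        rw [e2, e3]
        exact (decide_eq_false hu).symm
    · refine Eventually.of_forall fun i => ?_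
      have e1 : p.1 A = true := patch_not_mem hA p0
      have e2 : (e' i).1 A = true := patch_not_mem hA _
      rw [e1, e2]
  have hev : ∀ᶠ i in (hyperfilter ℕ : Filter ℕ), (fgen p)⁻¹ * fgen (e' i) ∈ U :=
    hlim.eventually (hq p)
  have hinf : {i | (fgen p)⁻¹ * fgen (e' i) ∈ U}.Infinite := by
    intro hfin
    exact (Ultrafilter.compl_mem_iff_notMem.1
      (mem_hyperfilter_of_finite_compl (by rw [compl_compl]; exact hfin))) hev
  obtain ⟨i, hi⟩ := hinf.nonempty
  obtain ⟨j, hj, hij⟩ := hinf.exists_notMem_finset {i}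
  refine ⟨i, j, fun h => hij (by rw [h]; exact Finset.mem_singleton_self j), ?_⟩
  have h5 := hUV _ (he' i) _ hi _ hj _ (he' j)
  have h6 : (fgen (ee i))⁻¹ * fgen (e' i) * ((fgen p)⁻¹ * fgen (e' i))⁻¹ *
      ((fgen p)⁻¹ * fgen (e' j)) * ((fgen (ee j))⁻¹ * fgen (e' j))⁻¹ =
      (fgen (ee i))⁻¹ * fgen (ee j) := by group
  rw [← h6]
  exact h5

lemma fgen_ee_mem (n : ℕ) : fgen (ee n) ∈ HH := by
  rw [mem_HH]
  unfold R'
  rw [ff_gen]
  congr 1
  unfold r'
  rw [if_pos]
  exact (mem_BB_iff _).2 ⟨n, rfl⟩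

instance : T2Space (FT XX) := T2Space.of_injective_continuous JJ_injective JJ_continuous

theorem HH_not_KR : ¬ IsKR HH := by
  classical
  intro h
  let f : HH → ℝ := fun x => if x = 1 then 1 else 0
  have hf : Continuous f := by
    apply h
    intro K hK
    have hfin : K.Finite := by
      have h1 : IsCompact ((fun x : HH => JJ (x : FT XX)) '' K) :=
        hK.image (JJ_continuous.comp continuous_subtype_val)
      have h2 := finite_of_compact _ h1 (by
        rintro _ ⟨x, -, rfl⟩
        exact HH_range x.2)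
      exact h2.of_finite_image
        (fun a _ b _ hab => Subtype.ext (JJ_injective hab))
    have := hfin.to_subtype
    rw [continuousOn_iff_continuous_domRestrict]
    exact continuous_of_discreteTopology
  have h1 : {x : HH | f x ≠ 0} ∈ 𝓝 (1 : HH) := by
    apply (isOpen_ne.preimage hf).mem_nhds
    change f 1 ≠ 0
    simp [f]
  rw [nhds_subtype_eq_comap, mem_comap] at h1
  obtain ⟨V, hV, hVs⟩ := h1
  obtain ⟨i, j, hij, hm⟩ := exists_pair V hV
  have h2 : (fgen (ee i))⁻¹ * fgen (ee j) ∈ HH := HH.mul_mem (HH.inv_mem (fgen_ee_mem i))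
    (fgen_ee_mem j)
  have h3 : (⟨_, h2⟩ : HH) ∈ {x : HH | f x ≠ 0} := hVs hm
  have h4 : (⟨_, h2⟩ : HH) = 1 := by
    by_contra hne
    apply h3
    exact if_neg hne
  have h5 : (fgen (ee i))⁻¹ * fgen (ee j) = 1 := congrArg Subtype.val h4
  have h6 : fgen (ee j) = fgen (ee i) := by
    rw [inv_mul_eq_one] at h5
    exact h5.symm
  have h7 : ee j = ee i := fgen_isEmbedding.injective h6
  exact hij (pr_injective (congrArg Subtype.val h7)).symm

/-- There is a Tychonoff space `X` whose free topological group `F` is a `k_R`-space but has a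
closed subgroup that is not a `k_R`-space. -/
theorem result : ∃ (X : Type) (_ : TopologicalSpace X) (_ : T35Space X) (F : Type) (_ : Group F)
    (_ : TopologicalSpace F) (i : X → F), IsFreeTopGroup X F i ∧ IsKR F ∧
      ∃ H : Subgroup F, IsClosed (H : Set F) ∧ ¬ IsKR H :=
  ⟨XX, inferInstance, inferInstance, FT XX, inferInstance, inferInstance, fgen, FT_free, FT_isKR,
    HH, isClosed_HH, HH_not_KR⟩

end final

end Pool.Agent.Results.MP_02575e_gt.FreeKR
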